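import Pool.Agent.L7h9.MS.Lin
import Pool.Agent.L7h9.TS.Smo
set_option autoImplicit false

/-!
Superelliptic curves with units at several scales: `(1 - y ^ N) ∏_{0 ≤ i ≤ m} (1 - (x / a_i) ^ M) = 1`
over a number field `K` with roots of unity of order `N` and `M`, where the `a_i` are units. The
`(N - 1) M (m + 1)` classes `{(y - ζ ^ j) / (y - ζ ^ (j + 1)), (x - ω ^ l a_i) / x}` are unramified
everywhere, and if the `a_i` are replaced by large powers, their regulators are independent. For
`N = 2`, `M = 1` these are `m + 1` classes on the hyperelliptic curve `Y ^ 2 = f (f - 1)`,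
`f = ∏ (1 - x / a_i)`, of genus `m`.
-/

namespace Pool.Agent.Results.MP_51fc19_nt.MultiScaleCurves

open Pool.Agent.TH826.MK (KQ Unramified Torus)

open Pool.Agent.L7h9.MS (CR Gn cst gx cl)

section defs

variable {K : Type*} [Field K] {m M N : ℕ}

/-- `a` is a unit of the ring of integers. -/
def IntegralUnit (a : Kˣ) : Prop := IsIntegral ℤ (a : K) ∧ IsIntegral ℤ ((a⁻¹ : Kˣ) : K)

/-- For every `i` there is a complex embedding `σ` such that the absolute values of all `σ a_k` are
different and that of `σ a_i` is not the smallest one. -/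
def Separated (a : Fin (m + 1) → Kˣ) : Prop :=
  ∀ i, ∃ σ : K →+* ℂ, Function.Injective (fun k => ‖σ (a k)‖) ∧ ∃ k, ‖σ (a k)‖ < ‖σ (a i)‖

/-- The indices `(j, l, i)`, `0 ≤ j < N - 1`, `0 ≤ l < M`, `0 ≤ i ≤ m`, of the classes. -/
abbrev Index (m M N : ℕ) : Type := Fin (N - 1) × Fin M × Fin (m + 1)

/-- The classes `{(y - ζ ^ j) / (y - ζ ^ (j + 1)), (x - ω ^ l a_i) / x}` have unramified images in
`K_2 ⊗ ℚ` of all fields `L` with a homomorphism from the coordinate ring to `L` (for example of the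
function field of the curve). -/
def UnramifiedClasses.{u, v} {K : Type u} [Field K] {m M N : ℕ} (a : Fin (m + 1) → Kˣ) {ζ ω : K}
    (hζ : ζ ^ N = 1) (hω : ω ^ M = 1) : Prop :=
  ∀ (L : Type v) [Field L] (f : CR M N a →+* L) (q : Index m M N),
    KQ.map 2 f (cl M a hζ hω q) ∈ Unramified L 2

/-- The loop lies in the complex points over some complex embedding `σ` of `K`, and `y ≠ 0` at its
points, so that the curve is étale over the `x`-line there. -/
def Over (a : Fin (m + 1) → Kˣ) (Γ : Torus (CR M N a) 1) : Prop :=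
  (∃ σ : K →+* ℂ, ∀ θ x, Γ.e θ (cst M N a x) = σ x) ∧ ∀ θ, Γ.e θ (gx M N a Gn.y) ≠ 0

/-- There are `(N - 1) M (m + 1)` loops in the complex points of the curve such that the determinant
of the regulators of the classes on the loops does not vanish. -/
def IndependentRegulators (a : Fin (m + 1) → Kˣ) {ζ ω : K} (hζ : ζ ^ N = 1)
    (hω : ω ^ M = 1) : Prop :=
  ∃ Γ : Index m M N → Torus (CR M N a) 1, (∀ t, Over a (Γ t)) ∧
    (Matrix.of fun t q => (Γ t).reg (cl M a hζ hω q)).det ≠ 0

end defs

/-- SUPERELLIPTIC CURVES WITH UNITS AT SEVERAL SCALES. Let `K` be a number field with a primitive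
`N`-th root of unity `ζ` and a primitive `M`-th root of unity `ω` (`N, M ≥ 1`; for example `N = 2`,
`M = 1` or `2` and any `K`). For units `a_0, ..., a_m` of `K` consider the curve

`(1 - y ^ N) (1 - (x / a_0) ^ M) ... (1 - (x / a_m) ^ M) = 1`, `x ≠ 0`,

and the `(N - 1) M (m + 1)` classes `{(y - ζ ^ j) / (y - ζ ^ (j + 1)), (x - ω ^ l a_i) / x}`,
`0 ≤ j < N - 1`, `0 ≤ l < M`, `0 ≤ i ≤ m`, in `K_2 ⊗ ℚ` of its coordinate ring.

* If the `a_i` are units of the ring of integers, all classes have unramified images in `K_2 ⊗ ℚ` of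
  every field `L` with a homomorphism from the coordinate ring to `L`.
* If for every `i` there is an embedding `σ` of `K` in `ℂ` such that the absolute values of all
  `σ a_k` are different and `|σ a_i|` is not the smallest one (`Separated`), then for all large `P`
  there are `(N - 1) M (m + 1)` loops in the complex points of the curve with the units
  `a_0 ^ P, ..., a_m ^ P`, such that the determinant of the regulators of the classes on the loops
  does not vanish.
* This condition is satisfied by `a_i = e ^ (n_i)`, if `e` is any unit of the ring of integers of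
  infinite order, `m ≥ 1`, and the integers `n_0, ..., n_m` are different. -/
theorem result.{u, v} (K : Type u) [Field K] [NumberField K] (m M N : ℕ) (hM : 0 < M) (hN : 0 < N)
    (ζ ω : K) (hζ : IsPrimitiveRoot ζ N) (hω : IsPrimitiveRoot ω M) :
    (∀ a : Fin (m + 1) → Kˣ, (∀ i, IntegralUnit (a i)) →
      UnramifiedClasses.{u, v} a hζ.pow_eq_one hω.pow_eq_one) ∧
    (∀ a : Fin (m + 1) → Kˣ, Separated a → ∃ P₀ : ℕ, ∀ P ≥ P₀,
      IndependentRegulators (fun i => a i ^ P) hζ.pow_eq_one hω.pow_eq_one) ∧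
    (∀ e : Kˣ, IntegralUnit e → (∀ k : ℕ, k ≠ 0 → e ^ k ≠ 1) → 1 ≤ m →
      ∀ n : Fin (m + 1) → ℤ, Function.Injective n → Separated fun i => e ^ n i) := by
  refine ⟨fun a ha L _ f q => Pool.Agent.L7h9.MS.cl_unramified hζ.pow_eq_one hω.pow_eq_one hM hN
    (fun i => (ha i).1) (fun i => (ha i).2) f q, fun a ha => ?_, fun e he hord hm n hn i => ?_⟩
  · obtain ⟨P₀, hP₀⟩ := Pool.Agent.L7h9.MS.exists_loops (a := a) hζ hω hN hM ha
    refine ⟨P₀, fun P hP => ?_⟩
    obtain ⟨Γ, h1, h2⟩ := hP₀ P hP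
    exact ⟨Γ, h1, h2⟩
  · obtain ⟨σ, τ, hσ, hτ⟩ := Pool.Agent.L7h9.TS.exists_places he.1 he.2 hord
    have hnorm : ∀ (ρ : K →+* ℂ) (k : Fin (m + 1)), ‖ρ ((e ^ n k : Kˣ) : K)‖ = ‖ρ e‖ ^ n k := by
      intro ρ k
      rw [Units.val_zpow_eq_zpow_val, map_zpow₀, norm_zpow]
    have hτ' : ‖τ e‖ < 1 := by
      rw [Units.val_inv_eq_inv_val, map_inv₀, norm_inv] at hτ
      by_contra hge
      rw [not_lt] at hge
      exact absurd hτ (not_lt.2 (inv_le_one_of_one_le₀ hge))
    have hτ0 : 0 < ‖τ e‖ := norm_pos_iff.2 ((map_ne_zero τ).2 e.ne_zero)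
    have : Nontrivial (Fin (m + 1)) := Fin.nontrivial_iff_two_le.2 (by omega)
    obtain ⟨k, hk⟩ := exists_ne i
    rcases lt_or_gt_of_ne (hn.ne hk) with h | h
    · refine ⟨σ, fun k k' hkk => hn ?_, k, ?_⟩
      · simp only [hnorm] at hkk
        exact zpow_right_injective₀ (zero_lt_one.trans hσ) hσ.ne' hkk
      · rw [hnorm, hnorm]
        exact zpow_lt_zpow_right₀ hσ h
    · refine ⟨τ, fun k k' hkk => hn ?_, k, ?_⟩
      · simp only [hnorm] at hkk
        exact zpow_right_injective₀ hτ0 hτ'.ne hkk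
      · rw [hnorm, hnorm]
        exact zpow_lt_zpow_right_of_lt_one₀ hτ0 hτ' h

end Pool.Agent.Results.MP_51fc19_nt.MultiScaleCurves
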