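import Pool.Agent.L7h9.WC.Unr
import Pool.Agent.L7h9.WC.Tor
import Pool.Agent.L7h9.WC.Gen
set_option autoImplicit false

/-!
Nonlinear circuits of functions on arbitrary affine varieties. Let `V = Spec A` be an arbitrary
affine scheme of finite type over a number field, `g_1, ..., g_m` functions on `V` with weights
`w_e`, `F_e` monic integral polynomials and `W_e` integral Laurent polynomials in one variable. A
nonlinear circuit is a set of `n + 1 ≥ 2` of the functions `g_e` which satisfy a polynomial relation
`R`, not a linear form, whose leading part for the weights is of diagonal type (for example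
`∑_e ε_e X_e ^ a_e`), the lower terms being arbitrary integral ones. Every nonlinear circuit gives a
class in Milnor `K`-theory of degree `n + 1` on the covering `W_e(z_e) = λ ^ (w_e deg F_e) F_e(g_e)`
of `V`, which is unramified everywhere for every algebraic integer `λ`, and for all but finitely many
algebraic integers `λ` the regulators of the classes of different circuits are independent.
-/

namespace Pool.Agent.Results.MP_51fc19_nt.NonlinearCircuits

open Pool.Agent.TH826.MK (KQ Unramified Torus)

open Pool.Agent.N65.TL (LP)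

open Pool.Agent.L7h9.CP (Cov)

open Pool.Agent.L7h9.WC (XR xbase xz sym slice)

section defs

variable {K A : Type*} [Field K] [CommRing A] {m n N : ℕ}

/-- The polynomial `R` is of diagonal type for the weights `w_0, ..., w_n`: it divides a polynomial
`∏_i (∑_e c_{i,e} X_e ^ a_{i,e}) + Q`, where the `c_{i,e}` are roots of unity, the products
`w_e a_{i,e} = κ_i > 0` do not depend on `e`, and `Q` has coefficients which are algebraic integers
and weighted degree smaller than `∑_i κ_i`. -/
def DiagonalType (w : Fin (n + 1) → ℕ) (R : MvPolynomial (Fin (n + 1)) K) : Prop :=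
  ∃ (k : ℕ) (c : Fin k → Fin (n + 1) → K) (a : Fin k → Fin (n + 1) → ℕ) (κ : Fin k → ℕ)
    (Q : MvPolynomial (Fin (n + 1)) K),
    (∀ i e, ∃ j : ℕ, j ≠ 0 ∧ c i e ^ j = 1) ∧ (∀ i, 0 < κ i) ∧ (∀ i e, w e * a i e = κ i) ∧
    (∀ μ, IsIntegral ℤ (Q.coeff μ)) ∧ (∀ μ, Q.coeff μ ≠ 0 → ∑ e, w e * μ e < ∑ i, κ i) ∧
    R ∣ (∏ i, ∑ e, MvPolynomial.C (c i e) * MvPolynomial.X e ^ a i e) + Q

/-- The `n + 1` different indices `D_0, ..., D_n` form a nonlinear circuit: the functions `g_(D i)`
satisfy a relation `R`, of diagonal type for their weights and not a linear form; and for some place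
`i0` the other `n` functions are algebraically independent over `K`, and their polynomials `F` have
roots `β` such that the polynomial `R(β, X)` in one variable (in the place `i0`) is separable and
coprime to the polynomial `F` of the place `i0`. -/
def NonlinearCircuit [Algebra K A] (C : Cov K A m) (w : Fin m → ℕ) (D : Fin (n + 1) → Fin m) :
    Prop :=
  Function.Injective D ∧ ∃ R : MvPolynomial (Fin (n + 1)) K, ¬ R.IsHomogeneous 1 ∧
    MvPolynomial.aeval (fun i => C.g (D i)) R = 0 ∧ DiagonalType (fun i => w (D i)) R ∧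
    ∃ i0 : Fin (n + 1), AlgebraicIndependent K (fun j : Fin n => C.g (D (i0.succAbove j))) ∧
      ∃ β : Fin n → AlgebraicClosure K,
        (∀ j, Polynomial.aeval (β j) (C.F (D (i0.succAbove j))) = 0) ∧
        (slice i0 β R).Separable ∧
        IsCoprime (slice i0 β R) ((C.F (D i0)).map (algebraMap K (AlgebraicClosure K)))

/-- The circuits `D_1, ..., D_N` have different underlying sets. -/
def Different (D : Fin N → Fin (n + 1) → Fin m) : Prop :=
  ∀ k k', Set.range (D k) = Set.range (D k') → k = k'

/-- The symbols `{z_e : e ∈ D_k}` have unramified images in `K_{n+1} ⊗ ℚ` of all fields `L` with a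
homomorphism from the coordinate ring to `L` (for example of the function fields of the
components). -/
def UnramifiedCircuits.{u, w, v} {K : Type u} {A : Type w} [Field K] [CommRing A] {m n N : ℕ}
    (C : Cov K A m) (wt : Fin m → ℕ) (ι : K →+* A) (lam : K) (D : Fin N → Fin (n + 1) → Fin m) :
    Prop :=
  ∀ (L : Type v) [Field L] (f : XR C wt ι lam →+* L) (k : Fin N),
    KQ.map (n + 1) f (sym C wt ι lam (D k)) ∈ Unramified L (n + 1)

/-- The value of `z W'(z)`. -/
noncomputable def deriv (σ : K →+* ℂ) (W : LP K 1) (z : ℂ) : ℂ :=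
  ∑ p ∈ W.coeff.support, σ (W.coeff p) * ((p 0 : ℂ) * z ^ p 0)

/-- There are `N` tori of dimension `n` in the complex points over `σ` of the covering, at whose
points the covering is étale over the base (`W_e'(z_e) ≠ 0`), such that the determinant of the
regulators of the `N` symbols on the `N` tori does not vanish. -/
def IndependentRegulators (σ : K →+* ℂ) (C : Cov K A m) (wt : Fin m → ℕ) (ι : K →+* A) (lam : K)
    (D : Fin N → Fin (n + 1) → Fin m) : Prop :=
  ∃ Γ : Fin N → Torus (XR C wt ι lam) n,
    (∀ t θ (x : K), (Γ t).e θ (xbase C wt ι lam (ι x)) = σ x) ∧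
    (∀ t θ e, deriv σ (C.W e) ((Γ t).e θ (xz C wt ι lam e : XR C wt ι lam)) ≠ 0) ∧
    (Matrix.of fun t k => (Γ t).reg (sym C wt ι lam (D k))).det ≠ 0

end defs

theorem finite_bounded (K : Type*) [Field K] [NumberField K] (C : (K →+* ℂ) → ℝ) :
    {lam : K | IsIntegral ℤ lam ∧ ∀ σ : K →+* ℂ, ‖σ lam‖ < C σ}.Finite := by
  classical
  obtain ⟨B, hB⟩ : ∃ B : ℝ, ∀ σ : K →+* ℂ, C σ ≤ B := by
    refine ⟨∑ σ : K →+* ℂ, |C σ|, fun σ => (le_abs_self _).trans ?_⟩
    exact Finset.single_le_sum (f := fun σ : K →+* ℂ => |C σ|) (fun _ _ => abs_nonneg _)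
      (Finset.mem_univ σ)
  refine (NumberField.Embeddings.finite_of_norm_le K ℂ B).subset ?_
  rintro lam ⟨h1, h2⟩
  exact ⟨h1, fun σ => (h2 σ).le.trans (hB σ)⟩

/-- NONLINEAR CIRCUITS ON VARIETIES. Let `K` be a number field and `A` an arbitrary finitely
generated `K`-algebra. For `e = 1, ..., m` let `w_e` be a positive integer, `g_e` an element of `A`,
`F_e` a monic polynomial of positive degree with coefficients in the ring of integers of `K` for
which `f_e = F_e(g_e)` is a unit of `A`, and `W_e` a Laurent polynomial in one variable with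
coefficients in the ring of integers, with terms of positive and of negative degree, whose two
extreme coefficients are roots of unity (`Cov.Admissible`). Let `n ≥ 1`, and let `D_1, ..., D_N` be
different nonlinear circuits with `n + 1` elements (`NonlinearCircuit`).

(1) For every algebraic integer `λ` of `K` the `N` symbols `{z_e : e ∈ D_k}` on the covering
`W_e(z_e) = λ ^ (w_e deg F_e) F_e(g_e)`, `e = 1, ..., m`, of the variety `Spec A` are unramified (at
all discrete valuations of all fields with a homomorphism from the coordinate ring).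

(2) For every complex embedding `σ` of `K` there is a constant `B` such that for all `λ ∈ K` with
`|σ λ| ≥ B` the regulators of the `N` symbols on `N` tori of dimension `n` in the complex points of
the covering over `σ` are independent.

(3) For all but finitely many algebraic integers `λ` of `K` the regulators of the `N` unramified
symbols are independent for some `σ`. -/
theorem result.{u, w, v} (K : Type u) [Field K] [NumberField K] (A : Type w) [CommRing A]
    [Algebra K A] [Algebra.FiniteType K A] (m n N : ℕ) (hn : 1 ≤ n) (C : Cov K A m)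
    (hC : C.Admissible (algebraMap K A)) (wt : Fin m → ℕ) (hwt : ∀ e, 0 < wt e)
    (D : Fin N → Fin (n + 1) → Fin m) (hD : ∀ k, NonlinearCircuit C wt (D k))
    (hD' : Different D) :
    (∀ lam : K, IsIntegral ℤ lam →
      UnramifiedCircuits.{u, w, v} C wt (algebraMap K A) lam D) ∧
    (∀ σ : K →+* ℂ, ∃ B : ℝ, ∀ lam : K, B ≤ ‖σ lam‖ →
      IndependentRegulators σ C wt (algebraMap K A) lam D) ∧
    {lam : K | IsIntegral ℤ lam ∧
      ¬ ∃ σ : K →+* ℂ, IndependentRegulators σ C wt (algebraMap K A) lam D}.Finite := by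
  obtain ⟨n', rfl⟩ : ∃ n', n = n' + 1 := ⟨n - 1, by omega⟩
  have h2 : ∀ σ : K →+* ℂ, ∃ B : ℝ, ∀ lam : K, B ≤ ‖σ lam‖ →
      IndependentRegulators σ C wt (algebraMap K A) lam D := by
    intro σ
    have hper : ∀ k, ∃ γ : Torus A (n' + 1),
        (∀ θ (x : K), γ.e θ (algebraMap K A x) = σ x) ∧
          γ.reg (Pool.Agent.L7h9.WC.lead C wt (algebraMap K A) (D k)) ≠ 0 := by
      intro k
      obtain ⟨-, R, -, hrel, ⟨l, c, a, κ, Q, hc, hκ, ha, -, hQ, hdvd⟩, i0, hind, β, hβ, hsep,
        hcop⟩ := hD k
      exact Pool.Agent.L7h9.WC.exists_period σ hC hwt hκ hc ha hQ hdvd hrel i0 hind β hβ hsep hcop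
    choose γ hγ hne using hper
    obtain ⟨B, -, hB⟩ := Pool.Agent.L7h9.WC.exists_cov_tori σ hC hwt D (fun k => (hD k).1) hD' γ
      hγ hne
    refine ⟨B, fun lam hl => ?_⟩
    obtain ⟨Γ, a1, a2, a3⟩ := hB lam hl
    refine ⟨Γ, a1, fun t θ e => ?_, a3⟩
    obtain ⟨i, hi⟩ := a2 t θ e
    have h3 : Pool.Agent.L7h9.LT.lder σ (C.W e)
        (fun _ : Fin 1 => (Γ t).e θ (xz C wt (algebraMap K A) lam e :
          XR C wt (algebraMap K A) lam)) i =
        deriv σ (C.W e) ((Γ t).e θ (xz C wt (algebraMap K A) lam e :
          XR C wt (algebraMap K A) lam)) := by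
      unfold Pool.Agent.L7h9.LT.lder deriv
      refine Finset.sum_congr rfl fun p _ => ?_
      rw [Fin.prod_univ_one, Fin.eq_zero i]
    rw [← h3]
    exact hi
  refine ⟨fun lam hlam L _ f k => ?_, h2, ?_⟩
  · obtain ⟨-, R, -, hrel, ⟨l, c, a, κ, Q, hc, hκ, ha, hQi, hQ, U, hU⟩, -⟩ := hD k
    refine Pool.Agent.L7h9.WC.sym_unramified' hC hwt hlam hκ hc ha hQi hQ ?_ f
    have h3 : Pool.Agent.L7h9.WC.rel c a Q = R * U := hU
    rw [h3, MvPolynomial.eval₂_mul]
    have h4 : MvPolynomial.eval₂ (algebraMap K A) (fun i => C.g (D k i)) R = 0 := hrel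
    rw [h4, zero_mul]
  · choose B hB using h2
    refine (finite_bounded K B).subset ?_
    rintro lam ⟨hl1, hl2⟩
    refine ⟨hl1, fun σ => ?_⟩
    by_contra hcon
    push Not at hcon
    exact hl2 ⟨σ, hB σ lam hcon⟩

end Pool.Agent.Results.MP_51fc19_nt.NonlinearCircuits
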