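import Pool.Agent.L7h9.TS.Smo
set_option autoImplicit false

/-!
The regulator on `H^d(𝒳, ℚ(d))`, `d = dim 𝒳 = s + n + 2`, at two places: classes on the
hypersurfaces `W(z_0, ..., z_s) = λ V(x_0, ..., x_n)` over a number field, where `λ` is a unit and
`W = G ∏_j ∏_i (z_j - c_{j,i})`, `V = H ∏_j ∏_i (x_j - b_{j,i})` are Laurent polynomials on both
sides, with roots of unity `c_{j,i}`, `b_{j,i}`. The classes `{u_0, ..., u_n, z_0, ..., z_s}` and
`{x_0, ..., x_n, w_0, ..., w_s}`, whose number is `∏_j q_j + ∏_j r_j`, are unramified at all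
discrete valuations, and the matrix of their regulators on tori over a place `σ` with `|σ λ|` large
and over a place `τ` with `|τ λ|` small has nonzero determinant; for every unit `ε` of infinite
order this is so for `λ = ε^N`, for all large `N`.
-/

namespace Pool.Agent.Results.MP_51fc19_nt.TwoPlaceFibrations

open Pool.Agent.TH826.MK (KQ Unramified Torus)

open Pool.Agent.N65.TL (LP)

open Pool.Agent.L7h9.TS (Marked XR xcst Ix cls)

section defs

variable {K : Type*} [Field K] {s n : ℕ}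

/-- `λ` is a unit of the ring of integers. -/
def IntegralUnit (lam : Kˣ) : Prop := IsIntegral ℤ (lam : K) ∧ IsIntegral ℤ ((lam⁻¹ : Kˣ) : K)

/-- The value of a Laurent polynomial. -/
noncomputable def value (σ : K →+* ℂ) (W : LP K (s + 1)) (z : Fin (s + 1) → ℂ) : ℂ :=
  ∑ m ∈ W.coeff.support, σ (W.coeff m) * ∏ i, z i ^ (m i)

/-- The value of the derivation `z_i ∂/∂z_i` of a Laurent polynomial. -/
noncomputable def deriv (σ : K →+* ℂ) (W : LP K (s + 1)) (z : Fin (s + 1) → ℂ)
    (i : Fin (s + 1)) : ℂ :=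
  ∑ m ∈ W.coeff.support, σ (W.coeff m) * ((m i : ℂ) * ∏ i, z i ^ (m i))

/-- At all complex points (over `σ`) of the hypersurface `W(z) = λ V(x)`, `z_i ≠ 0`, `x_j ≠ 0`, with
`V(x) ≠ 0` the gradient of the equation is not zero. -/
def Smooth (σ : K →+* ℂ) (P : Marked K s) (Q : Marked K n) (lam : Kˣ) : Prop :=
  ∀ (z : Fin (s + 1) → ℂ) (x : Fin (n + 1) → ℂ), (∀ i, z i ≠ 0) → (∀ j, x j ≠ 0) →
    value σ P.W z = σ lam * value σ Q.W x → value σ Q.W x ≠ 0 →
    (∃ i, deriv σ P.W z i ≠ 0) ∨ ∃ j, deriv σ Q.W x j ≠ 0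

/-- The classes have unramified images in `K_{n+s+2} ⊗ ℚ` of all fields `L` with a homomorphism from
the coordinate ring of the open part to `L` (for example of the function fields of its
components). -/
def UnramifiedClasses.{u, v} {K : Type u} [Field K] {s n : ℕ} (P : Marked K s) (Q : Marked K n)
    (lam : Kˣ) : Prop :=
  ∀ (L : Type v) [Field L] (f : XR P.W Q.W lam →+* L) (k : Ix P Q),
    KQ.map _ f (cls P Q lam k) ∈ Unramified L _

/-- The torus lies in the complex points over `σ`. -/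
def Over (σ : K →+* ℂ) (P : Marked K s) (Q : Marked K n) (lam : Kˣ)
    (Γ : Torus (XR P.W Q.W lam) (n + 1 + s)) : Prop :=
  ∀ θ (x : K), Γ.e θ (xcst P.W Q.W lam x) = σ x

/-- The place over which the torus with the index `t` lies: `σ` for the first kind of indices, `τ`
for the second kind. -/
def place (σ τ : K →+* ℂ) (P : Marked K s) (Q : Marked K n) (t : Ix P Q) : K →+* ℂ :=
  t.elim (fun _ => σ) fun _ => τ

/-- The matrix of the regulators of the classes on the tori `Γ_t`. -/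
noncomputable def regMat (P : Marked K s) (Q : Marked K n) (lam : Kˣ)
    (Γ : Ix P Q → Torus (XR P.W Q.W lam) (n + 1 + s)) : Matrix (Ix P Q) (Ix P Q) ℝ :=
  Matrix.of fun t k => (Γ t).reg (cls P Q lam k)

/-- There are `∏_j q_j` tori of dimension `n + s + 1` in the complex points over `σ` of the open
part and `∏_j r_j` tori in the complex points over `τ`, such that the determinant of the regulators
of the `∏_j q_j + ∏_j r_j` classes on the tori does not vanish. -/
def IndependentRegulators (σ τ : K →+* ℂ) (P : Marked K s) (Q : Marked K n) (lam : Kˣ) : Prop :=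
  ∃ Γ : Ix P Q → Torus (XR P.W Q.W lam) (n + 1 + s),
    (∀ t, Over (place σ τ P Q t) P Q lam (Γ t)) ∧ (regMat P Q lam Γ).det ≠ 0

/-- The open part is smooth over `σ` and over `τ`, and the classes have independent regulators on
tori over `σ` and `τ`. -/
def Good (σ τ : K →+* ℂ) (P : Marked K s) (Q : Marked K n) (lam : Kˣ) : Prop :=
  Smooth σ P Q lam ∧ Smooth τ P Q lam ∧ IndependentRegulators σ τ P Q lam

end defs

/-- Let `K` be a number field. Let `W = G ∏_{0 ≤ j ≤ s} ∏_{0 ≤ i ≤ r_j} (z_j - c_{j,i})` be a Laurent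
polynomial in `z_0, ..., z_s`, and `V = H ∏_{0 ≤ j ≤ n} ∏_{0 ≤ i ≤ q_j} (x_j - b_{j,i})` a Laurent
polynomial in `x_0, ..., x_n` over `K` (given by `P` and `Q`; `r_j, q_j ≥ 0`), which are admissible
(`Marked.Admissible`): `G` and `H` have integral coefficients, the `c_{j,i}` are roots of unity,
different for every `j`, the same for the `b_{j,i}`, and for `W` and for `V`

* the origin is an interior point of the Newton polytope, and
* there is a multiple with a nonzero integral cofactor which is a product of polynomials of simplex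
  type `∑_i ε_i z^{m_i}` (the `ε_i` are roots of unity, the `m_i` are affinely independent).

For a unit `λ` of the ring of integers of `K` let `X_λ` be the hypersurface `W(z) = λ V(x)`,
`z_i ≠ 0`, `x_j ≠ 0`, `V(x) ≠ 0` of dimension `n + s + 1`. The following classes in
`K_{n+s+2} ⊗ ℚ` of its coordinate ring are considered: the `∏_j q_j` classes
`{u_0, ..., u_n, z_0, ..., z_s}`, `u_j = (x_j - b_{j,k_j+1}) / (x_j - b_{j,0})`, `0 ≤ k_j < q_j`, and
the `∏_j r_j` classes `{x_0, ..., x_n, w_0, ..., w_s}`,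
`w_j = (z_j - c_{j,k_j+1}) / (z_j - c_{j,0})`, `0 ≤ k_j < r_j`.

* For every unit `λ` all classes have unramified images in `K_{n+s+2} ⊗ ℚ` of every field `L` with a
  homomorphism from the coordinate ring to `L`.
* For all embeddings `σ`, `τ` of `K` in `ℂ` there is a constant `C` such that for all `λ ≠ 0` of `K`
  with `|σ λ| ≥ C` and `|τ λ| ≤ 1 / C` the open part `X_λ` is smooth over `σ` and over `τ`, and there
  are `∏_j q_j` tori over `σ` and `∏_j r_j` tori over `τ`, of dimension `n + s + 1`, such that the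
  determinant of the regulators of the `∏_j q_j + ∏_j r_j` classes on the tori does not vanish.
* For every unit `ε` which is not a root of unity there are embeddings `σ`, `τ` such that this is the
  case for `λ = ε^N`, for all large `N`. -/
theorem result.{u, v} (s n : ℕ) (K : Type u) [Field K] [NumberField K] (P : Marked K s)
    (Q : Marked K n) (hP : P.Admissible) (hQ : Q.Admissible) :
    (∀ lam : Kˣ, IntegralUnit lam → UnramifiedClasses.{u, v} P Q lam) ∧
    (∀ σ τ : K →+* ℂ, ∃ C : ℝ, 0 < C ∧ ∀ lam : Kˣ, C ≤ ‖σ lam‖ → ‖τ lam‖ ≤ C⁻¹ →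
      Good σ τ P Q lam) ∧
    (∀ e : Kˣ, IntegralUnit e → (∀ k : ℕ, k ≠ 0 → e ^ k ≠ 1) →
      ∃ (σ τ : K →+* ℂ) (N₀ : ℕ), ∀ N ≥ N₀, Good σ τ P Q (e ^ N)) := by
  have key : ∀ σ τ : K →+* ℂ, ∃ C : ℝ, 0 < C ∧ ∀ lam : Kˣ, C ≤ ‖σ lam‖ → ‖τ lam‖ ≤ C⁻¹ →
      Good σ τ P Q lam := by
    intro σ τ
    obtain ⟨C1, h1, hC1⟩ := Pool.Agent.L7h9.TS.exists_both (P := P) (Q := Q) σ τ hP hQ
    obtain ⟨C2, h2, hC2⟩ := Pool.Agent.L7h9.TS.exists_smoothS σ P.W Q.W
    obtain ⟨C3, h3, hC3⟩ := Pool.Agent.L7h9.TS.exists_smoothS τ P.W Q.W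
    refine ⟨C1 + C2 + C3, by linarith, fun lam hl1 hl2 => ?_⟩
    have hl3 : C1 + C2 + C3 ≤ ‖τ (lam⁻¹ : Kˣ)‖ := by
      have h5 : (τ (lam⁻¹ : Kˣ) : ℂ) = (τ lam)⁻¹ := by
        rw [Units.val_inv_eq_inv_val, map_inv₀]
      rw [h5, norm_inv]
      have h6 : 0 < ‖τ lam‖ := norm_pos_iff.2 (by rw [map_ne_zero]; exact lam.ne_zero)
      have h7 : 0 < C1 + C2 + C3 := by linarith
      rw [le_inv_comm₀ h7 h6]
      exact hl2
    obtain ⟨Γ, a1, -, a3⟩ := hC1 lam (by linarith) (by linarith)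
    exact ⟨hC2 lam (Or.inl (by linarith)), hC3 lam (Or.inr (by linarith)), Γ, a1, a3⟩
  refine ⟨fun lam hlam L _ f k => Pool.Agent.L7h9.TS.cls_unramified hP hQ hlam.1 hlam.2 f k, key,
    fun e he hord => ?_⟩
  obtain ⟨σ, τ, hσ, hτ⟩ := Pool.Agent.L7h9.TS.exists_places he.1 he.2 hord
  obtain ⟨C, hC0, hC⟩ := key σ τ
  obtain ⟨N1, hN1⟩ := pow_unbounded_of_one_lt C hσ
  obtain ⟨N2, hN2⟩ := pow_unbounded_of_one_lt C hτ
  refine ⟨σ, τ, max N1 N2, fun N hN => hC (e ^ N) ?_ ?_⟩
  · rw [Units.val_pow_eq_pow_val, map_pow, norm_pow]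
    exact hN1.le.trans (pow_le_pow_right₀ hσ.le ((le_max_left _ _).trans hN))
  · have h6 : 0 < ‖τ e‖ := norm_pos_iff.2 (by rw [map_ne_zero]; exact e.ne_zero)
    have h5 : ‖τ e‖⁻¹ = ‖τ (e⁻¹ : Kˣ)‖ := by
      rw [Units.val_inv_eq_inv_val, map_inv₀, norm_inv]
    have h7 : C ≤ ‖τ (e⁻¹ : Kˣ)‖ ^ N :=
      hN2.le.trans (pow_le_pow_right₀ hτ.le ((le_max_right _ _).trans hN))
    rw [Units.val_pow_eq_pow_val, map_pow, norm_pow, le_inv_comm₀ (pow_pos h6 N) hC0, ← inv_pow, h5]
    exact h7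

end Pool.Agent.Results.MP_51fc19_nt.TwoPlaceFibrations
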